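import Pool.Agent.Helper3.AA.Spec

/-! # AA, part ANA2 -/

set_option autoImplicit false

open Real Set

namespace Pool.Agent.Helper70.AA.ANA2

open Pool.Agent.Helper3.AA

theorem conc_list (hCON : S_CON) (L : List ℝ) (hL : ∀ s ∈ L, 0 ≤ s ∧ s ≤ 1) (a b : ℝ) (ha : 0 ≤ a)
    (hb : b ≤ π / 2) :
    ConcaveOn ℝ (Icc a b) (fun t => (L.map fun s => arcsin (s * sin t)).sum) := by
  induction L with
  | nil => simpa using concaveOn_const (0 : ℝ) (convex_Icc a b)
  | cons s L ih =>
      have h1 := hL s (by simp)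
      have h2 := ih (fun s' hs' => hL s' (by simp [hs']))
      have h3 : ConcaveOn ℝ (Icc a b) (fun t => arcsin (s * sin t)) := by
        have := hCON 0 s a b (by nlinarith) (fun t ht => by
          have h5 : 0 ≤ sin t := sin_nonneg_of_nonneg_of_le_pi (ha.trans ht.1)
            (by linarith [ht.2, pi_pos])
          have := mul_nonneg h1.1 h5
          linarith)
        simpa using this
      have h4 := h3.add h2
      have h5 : (fun t => ((s :: L).map fun s => arcsin (s * sin t)).sum) =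
          (fun t => arcsin (s * sin t)) + (fun t => (L.map fun s => arcsin (s * sin t)).sum) := by
        funext t; simp
      rw [h5]; exact h4

/-- the function of one variable -/
noncomputable def FF (L : List ℝ) (c d K t : ℝ) : ℝ :=
  (π / 2 - t) + (L.map fun s => arcsin (s * sin t)).sum + arcsin |c * cos t + d * sin t| + K

theorem one_pos (hCON : S_CON) (L : List ℝ) (hL : ∀ s ∈ L, 0 ≤ s ∧ s ≤ 1) (c d K a b t : ℝ)
    (hcd : c ^ 2 + d ^ 2 ≤ 1) (ha : 0 ≤ a) (hb : b ≤ π / 2)
    (hs : ∀ t ∈ Icc a b, 0 ≤ c * cos t + d * sin t) (ht : t ∈ Icc a b)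
    (h1 : π ≤ FF L c d K a) (h2 : π ≤ FF L c d K b) : π ≤ FF L c d K t := by
  have hab : a ≤ b := ht.1.trans ht.2
  have hc1 := conc_list hCON L hL a b ha hb
  have hc2 := hCON c d a b hcd hs
  have hc3 : ConcaveOn ℝ (Icc a b) (fun t : ℝ => π / 2 - t + K) := by
    refine ⟨convex_Icc a b, fun x _ y _ p q _ _ hpq => le_of_eq ?_⟩
    simp only [smul_eq_mul]
    have : q = 1 - p := by linarith
    subst this
    ring
  have hc := (hc3.add hc1).add hc2
  have hm := hc.min_le_of_mem_Icc (left_mem_Icc.2 hab) (right_mem_Icc.2 hab) ht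
  have he : ∀ t ∈ Icc a b, FF L c d K t = (((fun t : ℝ => π / 2 - t + K) +
      fun t => (L.map fun s => arcsin (s * sin t)).sum) +
      fun t => arcsin (c * cos t + d * sin t)) t := by
    intro t ht
    unfold FF
    rw [abs_of_nonneg (hs t ht)]
    simp only [Pi.add_apply]
    ring
  rw [← he t ht, ← he a (left_mem_Icc.2 hab), ← he b (right_mem_Icc.2 hab)] at hm
  exact (le_min h1 h2).trans hm

theorem FF_neg (L : List ℝ) (c d K t : ℝ) : FF L (-c) (-d) K t = FF L c d K t := by
  unfold FF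
  rw [← abs_neg (c * cos t + d * sin t)]
  congr 4
  ring

theorem list_zero (L : List ℝ) : (L.map fun s => arcsin (s * sin 0)).sum = 0 := by
  induction L with
  | nil => simp
  | cons s L ih => simp

theorem list_one (L : List ℝ) :
    (L.map fun s => arcsin (s * sin (π / 2))).sum = (L.map arcsin).sum := by
  congr 1
  apply List.map_congr_left
  intro s _
  rw [sin_pi_div_two, mul_one]

/-- the edge `α = 0` -/
theorem edge0 (hCON : S_CON) (M : List ℝ) (hM : ∀ s ∈ M, 0 ≤ s ∧ s ≤ 1) (S β : ℝ) (hS : 0 ≤ S)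
    (h2 : π / 2 ≤ (M.map arcsin).sum + S) (hb0 : 0 ≤ β) (hb1 : β ≤ π / 2) :
    π ≤ FF M 1 0 (π / 2 + S) β := by
  refine one_pos hCON M hM 1 0 (π / 2 + S) 0 (π / 2) β (by norm_num) le_rfl le_rfl ?_ ⟨hb0, hb1⟩
    ?_ ?_
  · intro t ht
    have := cos_nonneg_of_mem_Icc (x := t) ⟨by linarith [ht.1, pi_pos], ht.2⟩
    linarith
  · unfold FF
    rw [list_zero]
    simp only [cos_zero, sin_zero, mul_one, mul_zero, add_zero, abs_one, arcsin_one]
    linarith [pi_pos]
  · unfold FF
    rw [list_one]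
    simp only [cos_pi_div_two, sin_pi_div_two, mul_zero, mul_one, add_zero, abs_zero, arcsin_zero]
    linarith

/-- the edge `α = π / 2` -/
theorem edge1 (hCON : S_CON) (M : List ℝ) (hM : ∀ s ∈ M, 0 ≤ s ∧ s ≤ 1) (r K β : ℝ)
    (hr0 : -1 ≤ r) (hr1 : r ≤ 1)
    (h1 : π / 2 ≤ K) (h3 : π ≤ (M.map arcsin).sum + arcsin |r| + K) (hb0 : 0 ≤ β)
    (hb1 : β ≤ π / 2) :
    π ≤ FF M 0 r K β := by
  have hr : |r| ≤ 1 := abs_le.2 ⟨hr0, hr1⟩
  have key : ∀ t, 0 ≤ t → t ≤ π / 2 → FF M 0 r K t = FF M 0 |r| K t := by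
    intro t ht0 ht1
    have h5 : 0 ≤ sin t := sin_nonneg_of_nonneg_of_le_pi ht0 (by linarith [pi_pos])
    unfold FF
    congr 3
    rw [zero_mul, zero_add, zero_add, abs_mul, abs_mul, abs_abs]
  rw [key β hb0 hb1]
  refine one_pos hCON M hM 0 |r| K 0 (π / 2) β ?_ le_rfl le_rfl ?_ ⟨hb0, hb1⟩ ?_ ?_
  · nlinarith [abs_nonneg r]
  · intro t ht
    have h5 : 0 ≤ sin t := sin_nonneg_of_nonneg_of_le_pi ht.1 (by linarith [pi_pos, ht.2])
    have := mul_nonneg (abs_nonneg r) h5
    linarith
  · unfold FF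
    rw [list_zero]
    simp only [cos_zero, sin_zero, mul_one, mul_zero, add_zero, abs_zero, arcsin_zero]
    linarith [pi_pos]
  · unfold FF
    rw [list_one]
    simp only [cos_pi_div_two, sin_pi_div_two, mul_zero, mul_one, zero_add, abs_abs]
    linarith

theorem sum_nonneg (L : List ℝ) (hL : ∀ s ∈ L, 0 ≤ s ∧ s ≤ 1) : 0 ≤ (L.map arcsin).sum := by
  apply List.sum_nonneg
  intro x hx
  obtain ⟨s, hs, rfl⟩ := List.mem_map.1 hx
  exact arcsin_nonneg.2 (hL s hs).1

theorem main (hCON : S_CON) (hSUB : S_SUB) (hTRI : S_TRI) : S_ANA2 := by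
  intro L M r S α β hL hM hr0 hr1 hS ha0 ha1 hb0 hb1 h1 h2 h3
  have hpi := pi_pos
  have hr : |r| ≤ 1 := abs_le.2 ⟨hr0, hr1⟩
  set KM : ℝ := (π / 2 - β) + (M.map fun s => arcsin (s * sin β)).sum + S with hKM
  have hG : (π / 2 - α) + (π / 2 - β) + (L.map fun s => arcsin (s * sin α)).sum +
    (M.map fun s => arcsin (s * sin β)).sum + arcsin |cos α * cos β + r * (sin α * sin β)| + S =
      FF L (cos β) (r * sin β) KM α := by
    unfold FF
    rw [hKM, show cos β * cos α + r * sin β * sin α = cos α * cos β + r * (sin α * sin β) by ring]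
    ring
  rw [hG]
  have hcd : cos β ^ 2 + (r * sin β) ^ 2 ≤ 1 := by
    have e1 := sin_sq_add_cos_sq β
    have e2 : (r * sin β) ^ 2 ≤ sin β ^ 2 := by
      rw [mul_pow]
      have : r ^ 2 ≤ 1 := by rw [← sq_abs]; nlinarith [abs_nonneg r]
      nlinarith [sq_nonneg (sin β)]
    linarith
  have hsb : 0 ≤ sin β := sin_nonneg_of_nonneg_of_le_pi hb0 (by linarith)
  have hcb : 0 ≤ cos β := cos_nonneg_of_mem_Icc (x := β) ⟨by linarith, hb1⟩
  -- the edges
  have hE0 : π ≤ FF L (cos β) (r * sin β) KM 0 := by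
    have := edge0 hCON M hM S β hS h2 hb0 hb1
    unfold FF at this ⊢
    rw [list_zero]
    simp only [cos_zero, sin_zero, mul_one, mul_zero, add_zero, one_mul, zero_mul] at this ⊢
    rw [hKM]
    linarith
  have hE1 : π ≤ FF L (cos β) (r * sin β) KM (π / 2) := by
    have := edge1 hCON M hM r ((L.map arcsin).sum + S) β hr0 hr1 h1 (by linarith) hb0 hb1
    unfold FF at this ⊢
    rw [list_one]
    simp only [cos_pi_div_two, sin_pi_div_two, mul_zero, zero_mul, zero_add, mul_one] at this ⊢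
    rw [hKM]
    linarith
  rcases le_or_gt 0 r with hr' | hr'
  · -- `r ≥ 0`
    refine one_pos hCON L hL _ _ KM 0 (π / 2) α hcd le_rfl le_rfl ?_ ⟨ha0, ha1⟩ hE0 hE1
    intro t ht
    have h5 : 0 ≤ sin t := sin_nonneg_of_nonneg_of_le_pi ht.1 (by linarith [ht.2])
    have h6 : 0 ≤ cos t := cos_nonneg_of_mem_Icc (x := t) ⟨by linarith [ht.1], ht.2⟩
    positivity
  · rcases hb0.eq_or_lt with hb | hb
    · -- `β = 0`
      have := edge0 hCON L hL S α hS h1 ha0 ha1
      rw [hKM, ← hb]
      unfold FF at this ⊢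
      rw [list_zero]
      simp only [cos_zero, sin_zero, mul_zero, zero_mul, add_zero, one_mul] at this ⊢
      linarith
    rcases hb1.eq_or_lt with hb' | hb'
    · -- `β = π / 2`
      have := edge1 hCON L hL r ((M.map arcsin).sum + S) α hr0 hr1 h2 (by linarith) ha0 ha1
      rw [hKM, hb']
      unfold FF at this ⊢
      rw [list_one]
      simp only [cos_pi_div_two, sin_pi_div_two, mul_one, zero_mul, zero_add, sub_self] at this ⊢
      linarith
    have hsb' : 0 < sin β := sin_pos_of_pos_of_lt_pi hb (by linarith)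
    have hcb' : 0 < cos β := cos_pos_of_mem_Ioo ⟨by linarith, hb'⟩
    -- the zero
    have hcont : ContinuousOn (fun t => cos β * cos t + r * sin β * sin t) (Icc 0 (π / 2)) := by
      fun_prop
    have hiv := intermediate_value_Icc' (by linarith : (0 : ℝ) ≤ π / 2) hcont
    have hmem : (0 : ℝ) ∈ Icc ((fun t => cos β * cos t + r * sin β * sin t) (π / 2))
        ((fun t => cos β * cos t + r * sin β * sin t) 0) := by
      simp only [cos_pi_div_two, sin_pi_div_two, cos_zero, sin_zero, mul_zero, zero_add, mul_one,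
        add_zero]
      exact ⟨by nlinarith, hcb⟩
    obtain ⟨z, hz, hz0⟩ := hiv hmem
    simp only at hz0
    have hz1 : 0 < z := by
      rcases hz.1.eq_or_lt with h | h
      · rw [← h, cos_zero, sin_zero] at hz0; linarith
      · exact h
    have hz2 : z < π / 2 := by
      rcases hz.2.eq_or_lt with h | h
      · rw [h, cos_pi_div_two, sin_pi_div_two] at hz0; nlinarith
      · exact h
    have hEz : π ≤ FF L (cos β) (r * sin β) KM z := by
      have hL0 := sum_nonneg L hL
      have hM0 := sum_nonneg M hM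
      have hq : |r| = -r := abs_of_neg hr'
      have haq : 0 ≤ arcsin (-r) := arcsin_nonneg.2 (by linarith)
      rw [hq] at h3
      have t1 := hTRI (max 0 (π / 2 - (L.map arcsin).sum)) (max 0 (π / 2 - (M.map arcsin).sum)) S z β
        (-r) (le_max_left _ _) (max_le (by linarith) (by linarith)) (le_max_left _ _)
        (max_le (by linarith) (by linarith)) (max_le hS (by linarith)) (max_le hS (by linarith))
        hz1 hz2 hb hb' (by linarith) (by linarith) (by linarith) (by
          rcases max_cases 0 (π / 2 - (L.map arcsin).sum) with h | h <;>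
          rcases max_cases 0 (π / 2 - (M.map arcsin).sum) with h' | h' <;>
          rw [h.1, h'.1] <;> linarith)
      have t2 := hSUB L (sin z) hL (sin_nonneg_of_nonneg_of_le_pi hz1.le (by linarith))
        (sin_le_one z)
      have t3 := hSUB M (sin β) hM hsb (sin_le_one β)
      unfold FF
      rw [hz0, abs_zero, arcsin_zero, hKM]
      linarith
    rcases le_total α z with haz | haz
    · refine one_pos hCON L hL _ _ KM 0 z α hcd le_rfl hz.2 ?_ ⟨ha0, haz⟩ hE0 hEz
      intro t ht
      have e1 := cos_le_cos_of_nonneg_of_le_pi ht.1 (by linarith) ht.2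
      have e2 := sin_le_sin_of_le_of_le_pi_div_two (by linarith [ht.1]) hz.2 ht.2
      have e3 := mul_le_mul_of_nonneg_left e1 hcb
      have e4 := mul_le_mul_of_nonneg_left e2 (by nlinarith : 0 ≤ -(r * sin β))
      linarith
    · rw [← FF_neg] at hEz hE1 ⊢
      refine one_pos hCON L hL _ _ KM z (π / 2) α (by rw [neg_sq, neg_sq]; exact hcd) hz.1 le_rfl ?_
        ⟨haz, ha1⟩ hEz hE1
      intro t ht
      have e1 := cos_le_cos_of_nonneg_of_le_pi hz.1 (by linarith [ht.2]) ht.1
      have e2 := sin_le_sin_of_le_of_le_pi_div_two (by linarith) ht.2 ht.1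
      have e3 := mul_le_mul_of_nonneg_left e1 hcb
      have e4 := mul_le_mul_of_nonneg_left e2 (by nlinarith : 0 ≤ -(r * sin β))
      linarith

end Pool.Agent.Helper70.AA.ANA2
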